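import Mathlib
import Pool.Agent.Lib.MP_eef9c4_lc.Defs
import Pool.Agent.Lib.MP_eef9c4_lc.Q2Defs
import Pool.Agent.Lib.MP_eef9c4_lc.Q2C
import Pool.Agent.Lib.MP_eef9c4_lc.Q2D

set_option autoImplicit false

open Pool.Agent.Lib.MP_eef9c4_lc

namespace Pool.Agent.Results.MP_eef9c4_lc.ExactClass

/-- `Gam` is the largest class of formulas that is closed under replacing equations by equations
and on which `G_I` and `G` always agree; it is not the class of all formulas. -/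
theorem result :
    (∀ (I : Set (ℕ → ℕ)) (G : Subgroup (Equiv.Perm ℕ)), IsScottIdeal I → IsProfinite G →
      treeCode G ∈ I ∨ twoCode G ∈ I → ∀ φ ψ : Fm, Gam φ → Same φ ψ →
        ∀ l : List (Equiv.Perm ℕ), (∀ g ∈ l, g ∈ subI G I) →
          (ψ.Sat (subI G I) l ↔ ψ.Sat G l)) ∧
    (∃ (I : Set (ℕ → ℕ)) (G : Subgroup (Equiv.Perm ℕ)) (l : List (Equiv.Perm ℕ)),
      IsScottIdeal I ∧ IsProfinite G ∧ treeCode G ∈ I ∧ twoCode G ∈ I ∧
        (∀ g ∈ l, g ∈ subI G I) ∧ ∀ φ : Fm, ¬ Gam φ →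
          ∃ ψ : Fm, Same φ ψ ∧ ¬ (ψ.Sat (subI G I) l ↔ ψ.Sat G l)) ∧
    ∀ s t u v : Tm, ¬ Gam (.ex (.all (.or (.neg (.eq s t)) (.eq u v)))) := by
  refine ⟨fun I G hI hG hT φ ψ h e => (h.same e).abs hI hG hT, ?_, fun s t u v h => ?_⟩
  · obtain ⟨I, G, l, h1, h2, h3, h4, h5⟩ := not_abs
    exact ⟨I, G, l, h1, h2, h3, twoCode_mem h1.ideal h2 h3, h4, h5⟩
  · obtain ⟨I, G, a, c, d, h1, h2, h3, h4, h5, h6, -, h8, h9⟩ := cl_main
    have k := (h.same (.ex (.all (.or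
      (.neg (.eq s t (.mul (.var 2) (.var 0)) (.mul (.var 0) (.var 2))))
      (.eq u v (.mul (.var 1) (.mul (.var 0) (.var 3)))
        (.mul (.mul (.var 4) (.mul (.var 0) (.var 3))) (.var 1))))))).abs h1 h2 (.inl h3)
      [a, c, d] (by simp [h4, h5, h6])
    simp only [Cl, imp_iff_not_or (b := _ = _)] at h8 h9
    exact h9 (k.2 h8)

end Pool.Agent.Results.MP_eef9c4_lc.ExactClass
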