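import Mathlib
import Pool.Agent.Lib.MP_eef9c4_lc.Defs
import Pool.Agent.Lib.MP_eef9c4_lc.Group

set_option autoImplicit false

open Pool.Agent.Lib.MP_eef9c4_lc

namespace Pool.Agent.Results.MP_eef9c4_lc.NotElementary

/-- A Scott ideal `I`, a profinite group `G` of permutations with tree in `I` and parameters
`b, c` in `G_I` such that an explicit exists-forall formula holds in `G` and fails in `G_I`. -/
theorem result : ∃ (I : Set (ℕ → ℕ)) (G : Subgroup (Equiv.Perm ℕ)) (b c : Equiv.Perm ℕ),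
    IsScottIdeal I ∧ IsProfinite G ∧ treeCode G ∈ I ∧ b ∈ subI G I ∧ c ∈ subI G I ∧
    (∃ x ∈ G, ∀ y ∈ G,
      x * c = c * x ∧ (x * y = y * x → b * y = y * b ∨ b * (y * c) = y * c * b)) ∧
    ¬ ∃ x ∈ subI G I, ∀ y ∈ subI G I,
      x * c = c * x ∧ (x * y = y * x → b * y = y * b ∨ b * (y * c) = y * c * b) :=
  main

end Pool.Agent.Results.MP_eef9c4_lc.NotElementary
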